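import Pool.Agent.BEW.StmtsD

set_option autoImplicit false

namespace Pool.Agent.BEW.H47

open Set Filter Topology MeasureTheory
open Pool.Agent.BE01 Pool.Agent.BEL Pool.Agent.BEG Pool.Agent.BEH Pool.Agent.BER

theorem tay_gd (al : ℝ) (hal : 0 < al) (s : ℝ) :
    HasDerivAt (fun s : ℝ => |s| ^ al * s) ((al + 1) * |s| ^ al) s := by
  by_cases hs : s = 0
  · rw [hs]
    have h1 := hasDerivAt_abs_rpow (0 : ℝ) (p := al + 1) (by linarith)
    rw [hasDerivAt_iff_isLittleO_nhds_zero] at h1 ⊢
    refine Asymptotics.IsBigO.trans_isLittleO (Asymptotics.IsBigO.of_bound 1 ?_) h1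
    refine Filter.Eventually.of_forall ?_
    intro h
    have h2 : |h| ^ (al + 1) = |h| ^ al * |h| := by
      rw [Real.rpow_add_one' (abs_nonneg h) (by linarith)]
    have h3 : (0 : ℝ) ^ al = 0 := Real.zero_rpow hal.ne'
    have h4 : (0 : ℝ) ^ (al + 1) = 0 := Real.zero_rpow (by linarith)
    simp only [zero_add, abs_zero, mul_zero, sub_zero, h3, h4, one_mul,
      Real.norm_eq_abs, abs_mul, smul_eq_mul]
    rw [h2, abs_mul, abs_abs]
  · have h1 := (hasDerivAt_abs hs).rpow_const (p := al) (Or.inl (abs_ne_zero.2 hs))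
    have h2 := h1.mul (hasDerivAt_id s)
    refine HasDerivAt.congr_deriv (f := fun s : ℝ => |s| ^ al * s) h2 ?_
    have h3 : (SignType.sign s : ℝ) * s = |s| := by
      rw [mul_comm]; exact self_mul_sign s
    have h4 : |s| ^ al = |s| ^ (al - 1) * |s| := by
      rw [← Real.rpow_add_one (abs_ne_zero.2 hs)]
      ring_nf
    simp only [id]
    rw [h4, ← h3]
    ring

theorem tay_mv (p E x y : ℝ) (hp : 1 < p) (hx : |x| ≤ E) (hy : |y| ≤ E) :
    |(|x| ^ p) - |y| ^ p| ≤ p * E ^ (p - 1) * |x - y| := by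
  have h := Convex.norm_image_sub_le_of_norm_hasDerivWithin_le (f := fun x : ℝ => |x| ^ p)
    (f' := fun x : ℝ => p * |x| ^ (p - 2) * x) (C := p * E ^ (p - 1)) (s := Icc (-E) E)
    (x := y) (y := x)
    (fun t _ => (hasDerivAt_abs_rpow t hp).hasDerivWithinAt)
    (by
      intro t ht
      have ht' : |t| ≤ E := abs_le.2 ht
      rw [Real.norm_eq_abs, abs_mul, abs_mul, abs_of_pos (by linarith : (0 : ℝ) < p),
        abs_of_nonneg (Real.rpow_nonneg (abs_nonneg t) _), mul_assoc]
      refine mul_le_mul_of_nonneg_left ?_ (by linarith)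
      have h1 : |t| ^ (p - 2) * |t| ≤ |t| ^ (p - 1) := by
        by_cases h0 : t = 0
        · rw [h0]
          simp only [abs_zero, mul_zero]
          exact Real.rpow_nonneg le_rfl _
        · rw [← Real.rpow_add_one (abs_ne_zero.2 h0)]
          refine le_of_eq ?_
          ring_nf
      exact h1.trans (Real.rpow_le_rpow (abs_nonneg t) ht' (by linarith)))
    (convex_Icc _ _) (abs_le.1 hy) (abs_le.1 hx)
  simpa only [Real.norm_eq_abs] using h

theorem tay_one (al : ℝ) (hal : 0 < al) : ∃ C : ℝ, 0 < C ∧ ∀ c h D : ℝ, 0 < D → |c| ≤ D → |h| ≤ D →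
    |(|c + h| ^ al) - |c| ^ al| ≤ C * D ^ (al - min al 1) * |h| ^ (min al 1) := by
  rcases le_or_gt al 1 with h1 | h1
  · refine ⟨1, one_pos, ?_⟩
    intro c h D hD hc hh
    rw [min_eq_left h1, sub_self, Real.rpow_zero, one_mul, one_mul]
    have key : ∀ a b : ℝ, 0 ≤ a → 0 ≤ b → b ≤ a → a - b ≤ |h| → a ^ al - b ^ al ≤ |h| ^ al := by
      intro a b ha hb hab hd
      have h2 := Real.rpow_add_le_add_rpow hb (sub_nonneg.2 hab) hal.le h1
      have h3 : b + (a - b) = a := by ring
      rw [h3] at h2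
      have h4 := Real.rpow_le_rpow (sub_nonneg.2 hab) hd hal.le
      linarith
    have h5 : |(|c + h| - |c|)| ≤ |h| := by
      have := abs_abs_sub_abs_le (c + h) c
      simpa using this
    have h6 := abs_le.1 h5
    rw [abs_le]
    rcases le_total |c| |c + h| with h7 | h7
    · have h8 := key _ _ (abs_nonneg (c + h)) (abs_nonneg c) h7 (by linarith)
      have h9 := Real.rpow_le_rpow (abs_nonneg c) h7 hal.le
      have h10 : 0 ≤ |h| ^ al := Real.rpow_nonneg (abs_nonneg h) _
      constructor <;> linarith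
    · have h8 := key _ _ (abs_nonneg c) (abs_nonneg (c + h)) h7 (by linarith)
      have h9 := Real.rpow_le_rpow (abs_nonneg (c + h)) h7 hal.le
      have h10 : 0 ≤ |h| ^ al := Real.rpow_nonneg (abs_nonneg h) _
      constructor <;> linarith
  · refine ⟨al * 2 ^ (al - 1), by positivity, ?_⟩
    intro c h D hD hc hh
    rw [min_eq_right h1.le, Real.rpow_one]
    have h2 : |c + h| ≤ 2 * D := (abs_add_le c h).trans (by linarith)
    have h3 := tay_mv al (2 * D) (c + h) c h1 h2 (by linarith)
    rw [Real.mul_rpow (by norm_num) hD.le] at h3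
    have h4 : c + h - c = h := by ring
    rw [h4] at h3
    calc _ ≤ _ := h3
      _ = _ := by ring

theorem tay : TayStmt := by
  intro al hal
  obtain ⟨C1, hC1, hone⟩ := tay_one al hal
  have hC3 : 0 < (al + 1) * 2 ^ al := by positivity
  have hC4 : 0 < (al + 2) * 2 ^ (al + 1) := by positivity
  have hC2 : 0 < (al + 1) * C1 := by positivity
  refine ⟨C1 + (al + 1) * C1 + (al + 1) * 2 ^ al + (al + 2) * 2 ^ (al + 1), by positivity, ?_⟩
  set C := C1 + (al + 1) * C1 + (al + 1) * 2 ^ al + (al + 2) * 2 ^ (al + 1) with hC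
  intro c h D hD hc hh
  have hm : 0 < min al 1 := lt_min hal one_pos
  have h2 : |c + h| ≤ 2 * D := (abs_add_le c h).trans (by linarith)
  have hgf : ∀ s, gf 1 al s = |s| ^ al * s := by
    intro s; unfold gf; rw [one_mul]
  refine ⟨?_, ?_, ?_, ?_⟩
  · refine (hone c h D hD hc hh).trans ?_
    refine mul_le_mul_of_nonneg_right ?_ (Real.rpow_nonneg (abs_nonneg h) _)
    refine mul_le_mul_of_nonneg_right ?_ (Real.rpow_nonneg hD.le _)
    linarith
  · rw [hgf, hgf]
    have hb : ∀ t : ℝ, HasDerivAt (fun t : ℝ => |c + t| ^ al * (c + t) - (al + 1) * |c| ^ al * t)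
        ((al + 1) * |c + t| ^ al - (al + 1) * |c| ^ al) t := by
      intro t
      have h3 : HasDerivAt (fun t : ℝ => c + t) 1 t := (hasDerivAt_id t).const_add c
      have h4 := (tay_gd al hal (c + t)).comp t h3
      have h5 := h4.sub ((hasDerivAt_id t).const_mul ((al + 1) * |c| ^ al))
      refine HasDerivAt.congr_deriv
        (f := fun t : ℝ => |c + t| ^ al * (c + t) - (al + 1) * |c| ^ al * t) h5 ?_
      ring
    have hk := Convex.norm_image_sub_le_of_norm_hasDerivWithin_le
      (f := fun t : ℝ => |c + t| ^ al * (c + t) - (al + 1) * |c| ^ al * t)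
      (f' := fun t : ℝ => (al + 1) * |c + t| ^ al - (al + 1) * |c| ^ al)
      (C := (al + 1) * (C1 * D ^ (al - min al 1) * |h| ^ (min al 1)))
      (s := Icc (-|h|) |h|) (x := 0) (y := h)
      (fun t _ => (hb t).hasDerivWithinAt)
      (by
        intro t ht
        have ht' : |t| ≤ |h| := abs_le.2 ht
        rw [Real.norm_eq_abs, ← mul_sub, abs_mul, abs_of_pos (by linarith : (0 : ℝ) < al + 1)]
        refine mul_le_mul_of_nonneg_left ?_ (by linarith)
        refine (hone c t D hD hc (ht'.trans hh)).trans ?_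
        refine mul_le_mul_of_nonneg_left ?_ (by positivity)
        exact Real.rpow_le_rpow (abs_nonneg t) ht' hm.le)
      (convex_Icc _ _) ⟨by simp, by simp⟩ ⟨neg_abs_le h, le_abs_self h⟩
    simp only [Real.norm_eq_abs, add_zero, mul_zero, sub_zero] at hk
    have h6 : |c + h| ^ al * (c + h) - |c| ^ al * c - (al + 1) * |c| ^ al * h =
        |c + h| ^ al * (c + h) - (al + 1) * |c| ^ al * h - |c| ^ al * c := by ring
    rw [h6]
    refine hk.trans ?_
    have h7 : (0 : ℝ) ≤ D ^ (al - min al 1) * |h| ^ (min al 1) * |h| := by positivity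
    have h8 : (al + 1) * C1 ≤ C := by linarith
    calc (al + 1) * (C1 * D ^ (al - min al 1) * |h| ^ (min al 1)) * |h|
        = ((al + 1) * C1) * (D ^ (al - min al 1) * |h| ^ (min al 1) * |h|) := by ring
      _ ≤ C * (D ^ (al - min al 1) * |h| ^ (min al 1) * |h|) :=
          mul_le_mul_of_nonneg_right h8 h7
      _ = _ := by ring
  · rw [hgf, hgf]
    have hk := Convex.norm_image_sub_le_of_norm_hasDerivWithin_le
      (f := fun t : ℝ => |t| ^ al * t)
      (f' := fun t : ℝ => (al + 1) * |t| ^ al)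
      (C := (al + 1) * (2 * D) ^ al)
      (s := Icc (-(2 * D)) (2 * D)) (x := c) (y := c + h)
      (fun t _ => (tay_gd al hal t).hasDerivWithinAt)
      (by
        intro t ht
        have ht' : |t| ≤ 2 * D := abs_le.2 ht
        rw [Real.norm_eq_abs, abs_mul, abs_of_pos (by linarith : (0 : ℝ) < al + 1),
          abs_of_nonneg (Real.rpow_nonneg (abs_nonneg t) _)]
        exact mul_le_mul_of_nonneg_left (Real.rpow_le_rpow (abs_nonneg t) ht' hal.le) (by linarith))
      (convex_Icc _ _) (abs_le.1 (hc.trans (by linarith))) (abs_le.1 h2)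
    have h4 : c + h - c = h := by ring
    simp only [Real.norm_eq_abs, h4] at hk
    refine hk.trans ?_
    refine mul_le_mul_of_nonneg_right ?_ (abs_nonneg h)
    rw [Real.mul_rpow (by norm_num) hD.le, ← mul_assoc]
    refine mul_le_mul_of_nonneg_right ?_ (Real.rpow_nonneg hD.le _)
    linarith
  · have h3 := tay_mv (al + 2) (2 * D) (c + h) c (by linarith) h2 (by linarith)
    have h4 : c + h - c = h := by ring
    have h5 : al + 2 - 1 = al + 1 := by ring
    rw [h4, h5, Real.mul_rpow (by norm_num) hD.le, ← mul_assoc] at h3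
    refine h3.trans ?_
    refine mul_le_mul_of_nonneg_right ?_ (abs_nonneg h)
    refine mul_le_mul_of_nonneg_right ?_ (Real.rpow_nonneg hD.le _)
    linarith

end Pool.Agent.BEW.H47
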